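import Pool.Agent.H958.RL.Stm
import Pool.Graph.R_seed8.W657.RD.PBas
import Pool.Graph.R_seed8.W571.RD.Pind

/-!
# Project RL: the edges between the two halves
-/

set_option autoImplicit false

namespace Pool.Agent.H23.RL.Cross

open Finset
open scoped Classical
open Pool.Agent.W830.RD (Om gle Pr Rlz)
open Pool.Agent.H958.RL

variable {n : ℕ}

/-- The edges between the two halves. -/
noncomputable def CC (n h : ℕ) : Finset (Fin n × Fin n) :=
  (Om n).filter (fun e => (e.1 : ℕ) < h ∧ n ≤ (e.2 : ℕ) + h)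

theorem mem_CC {h : ℕ} {e : Fin n × Fin n} :
    e ∈ CC n h ↔ e ∈ Om n ∧ (e.1 : ℕ) < h ∧ n ≤ (e.2 : ℕ) + h := by
  simp [CC]

theorem seg_sdiff {h : ℕ} (hh : 2 * h ≤ n) (E : Finset (Fin n × Fin n)) :
    seg (E \ CC n h) 0 h = seg E 0 h := by
  ext e
  simp only [seg, mem_filter, mem_sdiff]
  constructor
  · rintro ⟨⟨h1, _⟩, h2⟩; exact ⟨h1, h2⟩
  · rintro ⟨h1, h2⟩
    refine ⟨⟨h1, fun hc => ?_⟩, h2⟩
    have := (mem_CC.1 hc).2.2
    omega

theorem mem_rv {E : Finset (Fin n × Fin n)} {a b : Fin n} :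
    (a, b) ∈ rv E ↔ (Fin.rev b, Fin.rev a) ∈ E := by
  simp only [rv, mem_image, Prod.mk.injEq, Prod.exists]
  constructor
  · rintro ⟨x, y, h, h1, h2⟩
    rw [← h1, ← h2, Fin.rev_rev, Fin.rev_rev]
    exact h
  · intro h
    exact ⟨_, _, h, Fin.rev_rev a, Fin.rev_rev b⟩

theorem seg_rv_sdiff {h : ℕ} (hh : 2 * h ≤ n) (E : Finset (Fin n × Fin n)) :
    seg (rv (E \ CC n h)) 0 h = seg (rv E) 0 h := by
  ext ⟨a, b⟩
  simp only [seg, mem_filter, mem_rv, mem_sdiff]
  constructor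
  · rintro ⟨⟨h1, _⟩, h2⟩; exact ⟨h1, h2⟩
  · rintro ⟨h1, h2⟩
    refine ⟨⟨h1, fun hc => ?_⟩, h2⟩
    have h3 := (mem_CC.1 hc).2.1
    simp only [Fin.val_rev] at h3
    have := b.2
    omega

theorem Wr_sdiff {h : ℕ} (hh : 2 * h ≤ n) (E : Finset (Fin n × Fin n)) (X : Finset (Fin n)) :
    Wr (E \ CC n h) X 0 h = Wr E X 0 h := by
  unfold Wr; rw [seg_sdiff hh]

theorem Wr_rv_sdiff {h : ℕ} (hh : 2 * h ≤ n) (E : Finset (Fin n × Fin n)) (X : Finset (Fin n)) :
    Wr (rv (E \ CC n h)) X 0 h = Wr (rv E) X 0 h := by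
  unfold Wr; rw [seg_rv_sdiff hh]

theorem gle_mono {E E' : Finset (Fin n × Fin n)} (h : E ⊆ E') {x y : Fin n} (hxy : gle E x y) :
    gle E' x y :=
  Relation.ReflTransGen.mono (fun _ _ hab => h hab) _ _ hxy

theorem seg_sub (E : Finset (Fin n × Fin n)) (s t : ℕ) : seg E s t ⊆ E := filter_subset _ _

theorem gle_rv {E : Finset (Fin n × Fin n)} {x y : Fin n} (h : gle (rv E) x y) :
    gle E (Fin.rev y) (Fin.rev x) := by
  induction h with
  | refl => exact Relation.ReflTransGen.refl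
  | tail _ h2 ih => exact Relation.ReflTransGen.head (mem_rv.1 h2) ih

theorem Wr_lt {E : Finset (Fin n × Fin n)} {X : Finset (Fin n)} {a h : ℕ} (ha : a ≤ h)
    (hX : ∀ x ∈ X, (x : ℕ) < a) {v : Fin n} (hv : v ∈ Wr E X 0 h) : (v : ℕ) < h := by
  simp only [Wr, mem_filter, mem_univ, true_and] at hv
  obtain ⟨u, hu, hg⟩ := hv
  rcases Relation.ReflTransGen.cases_tail hg with h1 | ⟨c, _, h2⟩
  · rw [h1]; exact lt_of_lt_of_le (hX u hu) ha
  · simp only [seg, mem_filter] at h2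
    exact h2.2.2

/-- The first `a` vertices. -/
noncomputable def Ia (n a : ℕ) : Finset (Fin n) := univ.filter (fun x => (x : ℕ) < a)

theorem card_Ia (n a : ℕ) : (Ia n a).card ≤ a := by
  have h1 : ((Ia n a).image (fun x : Fin n => (x : ℕ))) ⊆ range a := by
    intro k hk
    simp only [Ia, mem_image, mem_filter, mem_univ, true_and] at hk
    obtain ⟨x, hx, rfl⟩ := hk
    exact mem_range.2 hx
  have h2 := card_le_card h1
  rw [card_image_of_injective _ Fin.val_injective, card_range] at h2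
  exact h2

/-- The bad event for one pair of sets. -/
def bad1 (N h : ℕ) (E1 : Finset (Fin n × Fin n)) (q : Finset (Fin n) × Finset (Fin n))
    (E2 : Finset (Fin n × Fin n)) : Prop :=
  N ≤ (Wr E1 q.1 0 h).card ∧ N ≤ (Wr (rv E1) q.2 0 h).card ∧
    ∀ u ∈ Wr E1 q.1 0 h, ∀ v ∈ Wr (rv E1) q.2 0 h, (u, Fin.rev v) ∉ E2

theorem main (h1 : S_COND) (h2 : S_REFL) : S_CROSS := by
  intro p n a b N h hp hp1 hh ha
  obtain ⟨_, hP0, hPm, hPor, _, hPU⟩ := Pool.Agent.W657.RD.PBas.main p n hp hp1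
  obtain ⟨_, _, hPe⟩ := Pool.Agent.W571.RD.Pind.main p n hp hp1
  set PQ : Finset (Finset (Fin n) × Finset (Fin n)) :=
    (powersetCard b (Ia n a)) ×ˢ (powersetCard b (Ia n a)) with hPQ
  -- the probability of one bad event
  have hone : ∀ E1 : Finset (Fin n × Fin n), ∀ q ∈ PQ,
      Pr p n (fun E => bad1 N h E1 q (E ∩ CC n h)) ≤ (1 - p) ^ (N ^ 2) := by
    intro E1 q hq
    simp only [hPQ, mem_product, mem_powersetCard] at hq
    have hX : ∀ x ∈ q.1, (x : ℕ) < a := fun x hx => by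
      have := hq.1.1 hx; simpa [Ia] using this
    have hY : ∀ x ∈ q.2, (x : ℕ) < a := fun x hx => by
      have := hq.2.1 hx; simpa [Ia] using this
    by_cases hN : N ≤ (Wr E1 q.1 0 h).card ∧ N ≤ (Wr (rv E1) q.2 0 h).card
    · set T : Finset (Fin n × Fin n) :=
        (Wr E1 q.1 0 h ×ˢ Wr (rv E1) q.2 0 h).image (fun w => (w.1, Fin.rev w.2)) with hT
      have hTC : T ⊆ CC n h := by
        intro e he
        simp only [hT, mem_image, mem_product, Prod.exists] at he
        obtain ⟨u, v, ⟨hu, hv⟩, rfl⟩ := he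
        have hu' := Wr_lt ha hX hu
        have hv' := Wr_lt ha hY hv
        have hvn := v.2
        rw [mem_CC]
        simp only [Om, mem_filter, mem_univ, true_and, Fin.lt_def, Fin.val_rev]
        omega
      have hTO : T ⊆ Om n := hTC.trans (filter_subset _ _)
      have hTc : N ^ 2 ≤ T.card := by
        rw [hT, card_image_of_injective, card_product, sq]
        · exact Nat.mul_le_mul hN.1 hN.2
        · rintro ⟨u, v⟩ ⟨u', v'⟩ huv
          simp only [Prod.mk.injEq, Fin.rev_inj] at huv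
          rw [huv.1, huv.2]
      refine (hPm _ (fun E => E ∩ T = ∅) ?_).trans ?_
      · intro E _ hb
        rw [eq_empty_iff_forall_notMem]
        intro e he
        rw [mem_inter] at he
        obtain ⟨heE, heT⟩ := he
        have heC := hTC heT
        simp only [hT, mem_image, mem_product, Prod.exists] at heT
        obtain ⟨u, v, ⟨hu, hv⟩, rfl⟩ := heT
        exact hb.2.2 u hu v hv (mem_inter.2 ⟨heE, heC⟩)
      · rw [hPe T hTO]
        exact pow_le_pow_of_le_one (by linarith) (by linarith) hTc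
    · refine (hPm _ (fun _ => False) ?_).trans ?_
      · intro E _ hb
        exact hN ⟨hb.1, hb.2.1⟩
      · have h0 : Pr p n (fun _ => False) = 0 := by
          unfold Pr
          refine Finset.sum_eq_zero fun E hE => ?_
          simp at hE
        rw [h0]
        exact pow_nonneg (by linarith) _
  -- all bad events
  have hbad : ∀ E1 : Finset (Fin n × Fin n),
      Pr p n (fun E => ∃ q ∈ PQ, bad1 N h E1 q (E ∩ CC n h)) ≤
        (a.choose b : ℝ) ^ 2 * (1 - p) ^ (N ^ 2) := by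
    intro E1
    refine (hPU _ PQ (fun q E => bad1 N h E1 q (E ∩ CC n h))).trans ?_
    refine (sum_le_sum (hone E1)).trans ?_
    rw [sum_const, nsmul_eq_mul]
    refine mul_le_mul_of_nonneg_right ?_ (pow_nonneg (by linarith) _)
    rw [hPQ, card_product, card_powersetCard, Nat.cast_mul, sq]
    have h3 : (Ia n a).card.choose b ≤ a.choose b := Nat.choose_le_choose b (card_Ia n a)
    have h4 : (((Ia n a).card.choose b : ℕ) : ℝ) ≤ (a.choose b : ℝ) := by exact_mod_cast h3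
    exact mul_le_mul h4 h4 (Nat.cast_nonneg _) (Nat.cast_nonneg _)
  have hcond : Pr p n (fun E => ∃ q ∈ PQ, bad1 N h (E \ CC n h) q (E ∩ CC n h)) ≤
      (a.choose b : ℝ) ^ 2 * (1 - p) ^ (N ^ 2) :=
    h1 p _ n (CC n h) (fun E1 E2 => ∃ q ∈ PQ, bad1 N h E1 q E2) hp hp1 (fun E1 _ => hbad E1)
  have hrefl := h2 p n (fun E => ¬ Lo E a b N h)
  -- the deterministic part
  have hdet : ∀ E : Finset (Fin n × Fin n), E ⊆ Om n → ¬ Mix E a b →
      ¬ Lo E a b N h ∨ (¬ Lo (rv E) a b N h ∨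
        ∃ q ∈ PQ, bad1 N h (E \ CC n h) q (E ∩ CC n h)) := by
    intro E _ hM
    by_contra hcon
    push Not at hcon
    obtain ⟨⟨A, hA1, hA2, hA3⟩, ⟨B, hB1, hB2, hB3⟩, hnb⟩ := hcon
    apply hM
    refine ⟨A, B.image Fin.rev, hA1, hA2, ?_, ?_, ?_⟩
    · intro y hy
      obtain ⟨z, hz, rfl⟩ := mem_image.1 hy
      have h3 := hB1 z hz
      rw [Fin.val_rev]
      omega
    · rw [card_image_of_injective _ Fin.rev_injective]; exact hB2
    · intro X hX Y hY hXc hYc
      have hY' : Y.image Fin.rev ⊆ B := by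
        intro y hy
        obtain ⟨z, hz, rfl⟩ := mem_image.1 hy
        obtain ⟨w, hw, rfl⟩ := mem_image.1 (hY hz)
        rw [Fin.rev_rev]; exact hw
      have hYc' : (Y.image Fin.rev).card = b := by
        rw [card_image_of_injective _ Fin.rev_injective]; exact hYc
      have hq : ((X, Y.image Fin.rev) : Finset (Fin n) × Finset (Fin n)) ∈ PQ := by
        simp only [hPQ, mem_product, mem_powersetCard]
        refine ⟨⟨fun x hx => ?_, hXc⟩, fun y hy => ?_, hYc'⟩
        · simp only [Ia, mem_filter, mem_univ, true_and]; exact hA1 x (hX hx)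
        · simp only [Ia, mem_filter, mem_univ, true_and]; exact hB1 y (hY' hy)
      have hnq := hnb _ hq
      have e1 := hA3 X hX hXc
      have e2 := hB3 _ hY' hYc'
      unfold bad1 at hnq
      simp only [Wr_sdiff hh, Wr_rv_sdiff hh] at hnq
      push Not at hnq
      obtain ⟨u, hu, v, hv, huv⟩ := hnq e1 e2
      simp only [Wr, mem_filter, mem_univ, true_and] at hu hv
      obtain ⟨x, hx, hxu⟩ := hu
      obtain ⟨y, hy, hyv⟩ := hv
      obtain ⟨z, hz, rfl⟩ := mem_image.1 hy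
      refine ⟨x, hx, z, hz, ?_⟩
      have g1 : gle E x u := gle_mono (seg_sub E 0 h) hxu
      have g2 : gle E (Fin.rev v) (Fin.rev (Fin.rev z)) := gle_rv (gle_mono (seg_sub (rv E) 0 h) hyv)
      rw [Fin.rev_rev] at g2
      exact (g1.tail (mem_inter.1 huv).1).trans g2
  calc Pr p n (fun E => ¬ Mix E a b)
      ≤ Pr p n (fun E => ¬ Lo E a b N h ∨ (¬ Lo (rv E) a b N h ∨
          ∃ q ∈ PQ, bad1 N h (E \ CC n h) q (E ∩ CC n h))) := hPm _ _ hdet
    _ ≤ Pr p n (fun E => ¬ Lo E a b N h) + Pr p n (fun E => ¬ Lo (rv E) a b N h ∨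
          ∃ q ∈ PQ, bad1 N h (E \ CC n h) q (E ∩ CC n h)) := hPor _ _
    _ ≤ Pr p n (fun E => ¬ Lo E a b N h) + (Pr p n (fun E => ¬ Lo (rv E) a b N h) +
          Pr p n (fun E => ∃ q ∈ PQ, bad1 N h (E \ CC n h) q (E ∩ CC n h))) := by
        have := hPor (fun E => ¬ Lo (rv E) a b N h)
          (fun E => ∃ q ∈ PQ, bad1 N h (E \ CC n h) q (E ∩ CC n h))
        linarith
    _ ≤ 2 * Pr p n (fun E => ¬ Lo E a b N h) + (a.choose b : ℝ) ^ 2 * (1 - p) ^ (N ^ 2) := by
        rw [hrefl]; linarith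

end Pool.Agent.H23.RL.Cross
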